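import Pool.Agent.H748R3.HUR.Stmts

/-!
# Project H748-HUR, task Split
-/

set_option autoImplicit false

namespace Pool.Agent.H957R3.HUR

open Filter Pool.Agent.H748R3.HUR

theorem key {ι : Type} [LinearOrder ι] [WellFoundedLT ι] {ρ : ι → ι → ℕ}
    (h1 : ∀ a b c, a < b → b < c → ρ a c ≤ max (ρ a b) (ρ b c))
    {a : ι} {D : ι → Lev} (hD : ∀ b < a, LevOK ρ D b (D b)) (par : ℕ → Prop)
    (hpar : ∀ m, 0 < m → par m ∨ par (m - 1)) (x : K)
    (hx : ∀ b < a, ∀ n, par n → ρ b a ≤ n → ∀ p ∈ Win (D b) n, x p = 1) :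
    ∀ b < a, ∀ m, ρ b a < m → x ∈ (D b).V m := by
  intro b
  induction b using WellFoundedLT.induction with
  | ind b ih =>
    intro hb m hm
    have hcl := (hD b hb).2.2.2.2.2
    have hstep : ∀ n, par n → ρ b a ≤ n → x ∈ (D b).V n ∧ x ∈ (D b).V (n + 1) := by
      intro n hn hρ
      refine hcl n x (hx b hb n hn hρ) ?_
      intro b' hb' m' hm'
      refine ih b' hb' (hb'.trans hb) m' ?_
      have := h1 b' b a hb' hb
      have h3 := lt_of_le_of_lt (le_max_left _ _) hm'
      have h4 := lt_of_le_of_lt (le_max_right _ _) hm'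
      rcases le_max_iff.1 this with h | h <;> omega
    rcases hpar m (by omega) with h | h
    · exact (hstep m h hm.le).1
    · have := (hstep (m - 1) h (by omega)).2
      rwa [Nat.sub_add_cancel (by omega)] at this

theorem win_disj_same {d : Lev} (hlM : ∀ n, d.l n < d.M n) (hMl : ∀ n, d.M n ≤ d.l (n + 1))
    {n n' : ℕ} (h : n < n') {p : ℕ × ℕ} (hp : p ∈ Win d n) (hp' : p ∈ Win d n') : False := by
  have hmono : ∀ k, d.M n ≤ d.l (n + 1 + k) := by
    intro k
    induction k with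
    | zero => exact hMl n
    | succ k ih => exact ih.trans (((hlM _).le).trans (hMl _))
  have h1 := hmono (n' - (n + 1))
  rw [show n + 1 + (n' - (n + 1)) = n' by omega] at h1
  have h2 : p.1 < d.M n := hp.2.1
  have h3 : d.l n' ≤ p.1 := hp'.1
  omega

theorem win_disj_lt {ι : Type} [LinearOrder ι] {ρ : ι → ι → ℕ}
    (h2 : ∀ a b c, a < b → b < c → ρ a b ≤ max (ρ a c) (ρ b c))
    {a : ι} {D : ι → Lev} (hD : ∀ b < a, LevOK ρ D b (D b)) {b b' : ι} (hb : b < a) (hb' : b' < b)
    {n n' : ℕ} (hn : ρ b a ≤ n) (hn' : ρ b' a ≤ n') {p : ℕ × ℕ} (hp : p ∈ Win (D b) n)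
    (hp' : p ∈ Win (D b') n') : False := by
  have hb'a := hb'.trans hb
  have e1 : n ≤ (D b).l n := (hD b hb).2.1 n
  have e2 : n' ≤ (D b').l n' := (hD b' hb'a).2.1 n'
  have p1 : (D b).l n ≤ p.1 := hp.1
  have p2 : (D b').l n' ≤ p.1 := hp'.1
  have p3 : p.1 < (D b').M n' := hp'.2.1
  have p4 : (D b).g p.1 ≤ p.2 := hp.2.2.1
  have p5 : p.2 < (D b').M n' := hp'.2.2.2
  have hk : ρ b' b ≤ p.1 := by
    rcases le_max_iff.1 (h2 b' b a hb' hb) with h | h <;> omega
  have := (hD b hb).2.2.2.2.1 b' hb' n' p.1 p2 p3 hk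
  omega

theorem taskSplit : TaskSplit := by
  classical
  intro ι _ _ ρ h1 h2 a D hD z hz
  let E : Set (ℕ × ℕ) := {p | ∃ b < a, ∃ n, Even n ∧ ρ b a ≤ n ∧ p ∈ Win (D b) n}
  have hO : ∀ b < a, ∀ n, Odd n → ρ b a ≤ n → ∀ p ∈ Win (D b) n, p ∉ E := by
    rintro b hb n hn hρ p hp ⟨b', hb', n', hn', hρ', hp'⟩
    rcases lt_trichotomy b b' with h | h | h
    · exact win_disj_lt h2 hD hb' h hρ' hρ hp' hp
    · subst h
      have hlM := (hD b hb).2.2.1
      have hMl := (hD b hb).2.2.2.1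
      rcases lt_trichotomy n n' with h | h | h
      · exact win_disj_same hlM hMl h hp hp'
      · subst h
        exact (Nat.not_even_iff_odd.2 hn) hn'
      · exact win_disj_same hlM hMl h hp' hp
    · exact win_disj_lt h2 hD hb h hρ hρ' hp hp'
  refine ⟨fun p => if p ∈ E then 1 else z p, fun p => if p ∈ E then z p else 1, ?_, ?_, ?_, ?_⟩
  · obtain ⟨m, hm⟩ := hz
    refine ⟨m, fun k hk => ?_⟩
    obtain ⟨N, hN⟩ := hm k hk
    refine ⟨N, fun h hh => ?_⟩
    dsimp only
    split_ifs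
    · rfl
    · exact hN h hh
  · obtain ⟨m, hm⟩ := hz
    refine ⟨m, fun k hk => ?_⟩
    obtain ⟨N, hN⟩ := hm k hk
    refine ⟨N, fun h hh => ?_⟩
    dsimp only
    split_ifs
    · exact hN h hh
    · rfl
  · funext p
    simp only [Pi.mul_apply]
    split_ifs <;> simp
  · intro b hb m hm
    constructor
    · refine key h1 hD Even ?_ _ ?_ b hb m hm
      · intro m hm
        rcases Nat.even_or_odd m with h | h
        · exact Or.inl h
        · right
          obtain ⟨k, rfl⟩ := h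
          exact ⟨k, by omega⟩
      · intro b hb n hn hρ p hp
        have : p ∈ E := ⟨b, hb, n, hn, hρ, hp⟩
        simp only [if_pos this]
    · refine key h1 hD Odd ?_ _ ?_ b hb m hm
      · intro m hm
        rcases Nat.even_or_odd m with h | h
        · right
          obtain ⟨k, rfl⟩ := h
          exact ⟨k - 1, by omega⟩
        · exact Or.inl h
      · intro b hb n hn hρ p hp
        have : p ∉ E := hO b hb n hn hρ p hp
        simp only [if_neg this]

end Pool.Agent.H957R3.HUR
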